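import Pool.Agent.X304.Newt.Main

/-!
# Condition (Z) forces `c = 0`

Newton's map `N(z) = z - P/(cP + P')` of the entire function `P e^{cz}` has derivative
`P d²(P)/d(P)²`.  If `c ≠ 0`, then `∞` is a parabolic fixed point of `N`: in a half plane
`Re(-cz) > R` the map is close to the translation `-cz ↦ -cz + 1`.  Condition (Z) says that no
critical point lies in the basin of this half plane, hence the iterates of `N` are coverings over
it, and inverse branches of `N^n` are defined on discs whose radius grows linearly.  They omit a
disc around a zero of `P` (a superattracting fixed point), and Cauchy's inequality applied to the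
inverse branches and to `N^n` gives a contradiction.
-/

set_option autoImplicit false

open Polynomial Pool.Agent.X304.Newt

namespace Pool.Agent.Results.MP_3dabd4_an.NoTwist

/-- The operator `d(P) = cP + P'`. -/
noncomputable def d (c : ℂ) (P : ℂ[X]) : ℂ[X] := C c * P + derivative P

/-- All zeros of `P` are simple. -/
def SimpleZeros (P : ℂ[X]) : Prop := ∀ z : ℂ, P.IsRoot z → P.rootMultiplicity z = 1

/-- Condition (Z): every zero of `d(d(P))` is a zero of `P` or of `d(P)`. -/
def CondZ (P : ℂ[X]) (c : ℂ) : Prop :=
  ∀ z : ℂ, (d c (d c P)).IsRoot z → P.IsRoot z ∨ (d c P).IsRoot z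

/-- If `P` is a nonconstant polynomial with only simple zeros and `(P, c)` satisfies condition (Z),
then `c = 0`. -/
theorem result : ∀ (P : ℂ[X]) (c : ℂ), 0 < P.natDegree → SimpleZeros P → CondZ P c → c = 0 := by
  intro P c hP hs hZ
  by_contra hc
  have hP0 : P ≠ 0 := by rintro rfl; simp at hP
  refine main (Q := C c) (P := P) (by simpa using hc) hP (fun z hz hz' => ?_) (fun z hz => hZ z hz)
  have h1 := (one_lt_rootMultiplicity_iff_isRoot hP0 (t := z)).2 ⟨hz, hz'⟩
  have h2 := hs z hz
  omega

end Pool.Agent.Results.MP_3dabd4_an.NoTwist
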